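import Mathlib
import Pool.Prelude.Def_F_0b2be043
import Pool.Agent.H449R2.Chi.Main

set_option autoImplicit false

namespace Pool.Agent.Results.MP_b49a7e_co.ChromaticUpperBound

open Filter Ndef2032f

/-- The unit distance graph of R^n has a proper colouring with at most 10369 n^3 (3 sqrt 3 / 2)^n colours
for every n ≥ 1; in particular limsup chi(R^n)^(1/n) ≤ 3 sqrt 3 / 2 = 2.598... -/
theorem result :
    (∀ n : ℕ, 1 ≤ n → ∃ m : ℕ, (m : ℝ) ≤ 10369 * (n : ℝ) ^ 3 * (3 * √3 / 2) ^ n ∧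
      (unitDistanceGraph n).Colorable m) ∧
    limsup (fun n : ℕ => ((unitDistanceGraph n).chromaticNumber.toNat : ℝ) ^ (1 / (n : ℝ))) atTop
      ≤ 3 * √3 / 2 := by
  have hcol : ∀ n : ℕ, 1 ≤ n → ∃ m : ℕ, (m : ℝ) ≤ 10369 * (n : ℝ) ^ 3 * (3 * √3 / 2) ^ n ∧
      (unitDistanceGraph n).Colorable m := by
    intro n hn
    obtain ⟨m, hm, col, hc⟩ := Pool.Agent.H449R2.Chi.main n hn
    refine ⟨m, hm, ⟨SimpleGraph.Coloring.mk col ?_⟩⟩
    intro x y hxy
    exact hc x y hxy
  refine ⟨hcol, ?_⟩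
  have hpos : (0:ℝ) < 3 * √3 / 2 := by positivity
  -- the comparison sequence
  have hle : ∀ n : ℕ, 1 ≤ n → ((unitDistanceGraph n).chromaticNumber.toNat : ℝ) ^ (1 / (n : ℝ))
      ≤ (10369 * (n : ℝ) ^ 3) ^ (1 / (n : ℝ)) * (3 * √3 / 2) := by
    intro n hn
    obtain ⟨m, hm, hc⟩ := hcol n hn
    have hnr : (0:ℝ) < n := by exact_mod_cast hn
    have h1 : (unitDistanceGraph n).chromaticNumber.toNat ≤ m := by
      have h2 : (unitDistanceGraph n).chromaticNumber ≤ m := hc.chromaticNumber_le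
      exact ENat.toNat_le_of_le_natCast h2
    have h2 : ((unitDistanceGraph n).chromaticNumber.toNat : ℝ) ≤ 10369 * (n : ℝ) ^ 3 * (3 * √3 / 2) ^ n := by
      have : ((unitDistanceGraph n).chromaticNumber.toNat : ℝ) ≤ m := by exact_mod_cast h1
      linarith
    calc ((unitDistanceGraph n).chromaticNumber.toNat : ℝ) ^ (1 / (n : ℝ))
        ≤ (10369 * (n : ℝ) ^ 3 * (3 * √3 / 2) ^ n) ^ (1 / (n : ℝ)) :=
          Real.rpow_le_rpow (by positivity) h2 (by positivity)
      _ = (10369 * (n : ℝ) ^ 3) ^ (1 / (n : ℝ)) * ((3 * √3 / 2) ^ n) ^ (1 / (n : ℝ)) :=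
          Real.mul_rpow (by positivity) (by positivity)
      _ = (10369 * (n : ℝ) ^ 3) ^ (1 / (n : ℝ)) * (3 * √3 / 2) := by
          congr 1
          rw [← Real.rpow_natCast, ← Real.rpow_mul hpos.le, mul_one_div_cancel hnr.ne', Real.rpow_one]
  have htend : Tendsto (fun n : ℕ => (10369 * (n : ℝ) ^ 3) ^ (1 / (n : ℝ)) * (3 * √3 / 2)) atTop
      (nhds (3 * √3 / 2)) := by
    have h1 : Tendsto (fun n : ℕ => (10369 * (n : ℝ) ^ 3) ^ (1 / (n : ℝ))) atTop (nhds 1) := by
      have h2 : Tendsto (fun n : ℕ => (10369:ℝ) ^ (1 / (n : ℝ))) atTop (nhds 1) := by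
        have h3 : Tendsto (fun n : ℕ => (1 / (n : ℝ))) atTop (nhds 0) := tendsto_one_div_atTop_nhds_zero_nat
        have h4 := (Real.continuousAt_const_rpow (a := 10369) (b := 0) (by norm_num)).tendsto.comp h3
        simpa [Function.comp_def] using h4
      have h5 : Tendsto (fun n : ℕ => ((n:ℝ) ^ (1 / (n : ℝ))) ^ 3) atTop (nhds (1 ^ 3)) := by
        have h6 : Tendsto (fun n : ℕ => ((n:ℝ) ^ (1 / (n : ℝ)))) atTop (nhds 1) :=
          tendsto_rpow_div.comp tendsto_natCast_atTop_atTop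
        exact h6.pow 3
      have h7 := h2.mul h5
      simp only [one_pow, mul_one] at h7
      refine h7.congr' ?_
      filter_upwards [eventually_ge_atTop 1] with n hn
      rw [Real.mul_rpow (by norm_num) (by positivity)]
      congr 1
      rw [← Real.rpow_natCast, ← Real.rpow_natCast, ← Real.rpow_mul (by positivity), ← Real.rpow_mul (by positivity)]
      congr 1
      ring
    have h8 := h1.mul_const (3 * √3 / 2)
    simpa using h8
  calc limsup (fun n : ℕ => ((unitDistanceGraph n).chromaticNumber.toNat : ℝ) ^ (1 / (n : ℝ))) atTop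
      ≤ limsup (fun n : ℕ => (10369 * (n : ℝ) ^ 3) ^ (1 / (n : ℝ)) * (3 * √3 / 2)) atTop := by
        apply limsup_le_limsup
        · filter_upwards [eventually_ge_atTop 1] with n hn
          exact hle n hn
        · refine ⟨0, ?_⟩
          intro a ha
          simp only [eventually_map] at ha
          obtain ⟨n, hn⟩ := ha.exists
          exact le_trans (by positivity) hn
        · exact htend.isBoundedUnder_le
    _ = 3 * √3 / 2 := htend.limsup_eq

end Pool.Agent.Results.MP_b49a7e_co.ChromaticUpperBound
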